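import Pool.Agent.Helper97.LPP.Defs

/-! LPP-2: two disjoint sets are dominated by independent copies (BK type inequality). -/

open MeasureTheory ProbabilityTheory Filter Topology
open scoped ENNReal

namespace Helper97.LPP

/-- exponent of the hybrid: in the second sum the coordinates in `T` are taken from the second
copy -/
noncomputable def h49E {ι : Type*} [DecidableEq ι] (A B : Finset ι) (θ₁ θ₂ : ℝ) (T : Finset ι)
    (z : ι → ℝ × ℝ) : ℝ :=
  θ₁ * ∑ i ∈ A, (z i).1 + θ₂ * ∑ i ∈ B, (if i ∈ T then (z i).2 else (z i).1)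

/-- the hybrid supremum -/
noncomputable def h49F {ι J : Type*} [DecidableEq ι] (s : Finset J) (A B : J → Finset ι)
    (θ₁ θ₂ : ℝ) (T : Finset ι) (z : ι → ℝ × ℝ) : ℝ≥0∞ :=
  s.sup fun j => ENNReal.ofReal (Real.exp (h49E (A j) (B j) θ₁ θ₂ T z))

/-- exchange of the two copies at the coordinate `i` -/
def h49S {ι : Type*} [DecidableEq ι] (i : ι) (z : ι → ℝ × ℝ) : ι → ℝ × ℝ :=
  fun k => (if k = i then Prod.swap else id) (z k)

theorem h49S_invol {ι : Type*} [DecidableEq ι] (i : ι) (z : ι → ℝ × ℝ) :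
    h49S i (h49S i z) = z := by
  funext k
  by_cases h : k = i <;> simp [h49S, h]

theorem h49S_self {ι : Type*} [DecidableEq ι] (i : ι) (z : ι → ℝ × ℝ) :
    h49S i z i = ((z i).2, (z i).1) := by
  simp [h49S, Prod.swap]

theorem h49S_ne {ι : Type*} [DecidableEq ι] {i k : ι} (h : k ≠ i) (z : ι → ℝ × ℝ) :
    h49S i z k = z k := by
  simp [h49S, h]

theorem h49F_measurable {ι J : Type*} [DecidableEq ι] (s : Finset J)
    (A B : J → Finset ι) (θ₁ θ₂ : ℝ) (T : Finset ι) : Measurable (h49F s A B θ₁ θ₂ T) := by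
  unfold h49F
  have : ∀ j ∈ s, Measurable (fun z : ι → ℝ × ℝ =>
      ENNReal.ofReal (Real.exp (h49E (A j) (B j) θ₁ θ₂ T z))) := by
    intro j _
    apply ENNReal.measurable_ofReal.comp
    apply Real.measurable_exp.comp
    unfold h49E
    apply Measurable.add
    · apply Measurable.const_mul
      apply Finset.measurable_sum
      intro i _
      exact measurable_fst.comp (measurable_pi_apply i)
    · apply Measurable.const_mul
      apply Finset.measurable_sum
      intro i _
      by_cases h : i ∈ T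
      · simp only [h, if_true]
        exact measurable_snd.comp (measurable_pi_apply i)
      · simp only [h, if_false]
        exact measurable_fst.comp (measurable_pi_apply i)
  classical
  induction s using Finset.induction_on with
  | empty => simp
  | insert a s ha ih =>
    simp only [Finset.sup_insert]
    exact (this a (Finset.mem_insert_self _ _)).sup
      (ih fun j hj => this j (Finset.mem_insert_of_mem hj))

/-- the pointwise inequality, ordered case -/
theorem h49_point_aux {ι J : Type*} [DecidableEq ι] (s : Finset J) (A B : J → Finset ι)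
    (hd : ∀ j ∈ s, Disjoint (A j) (B j)) {θ₁ θ₂ : ℝ} (h1 : 0 ≤ θ₁) (h2 : 0 ≤ θ₂)
    (T : Finset ι) {i : ι} (hi : i ∉ T) (z : ι → ℝ × ℝ) (hz : (z i).1 ≤ (z i).2) :
    h49F s A B θ₁ θ₂ T z + h49F s A B θ₁ θ₂ T (h49S i z) ≤
      h49F s A B θ₁ θ₂ (insert i T) z + h49F s A B θ₁ θ₂ (insert i T) (h49S i z) := by
  have e1 : h49F s A B θ₁ θ₂ T z ≤ h49F s A B θ₁ θ₂ (insert i T) z := by
    apply Finset.sup_mono_fun
    intro j _
    apply ENNReal.ofReal_le_ofReal
    apply Real.exp_le_exp.mpr
    unfold h49E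
    apply add_le_add le_rfl
    apply mul_le_mul_of_nonneg_left _ h2
    apply Finset.sum_le_sum
    intro k _
    by_cases hk : k = i
    · subst hk; simp [hi, hz]
    · simp [hk]
  have e2 : h49F s A B θ₁ θ₂ T z ≤ h49F s A B θ₁ θ₂ (insert i T) (h49S i z) := by
    apply Finset.sup_mono_fun
    intro j _
    apply ENNReal.ofReal_le_ofReal
    apply Real.exp_le_exp.mpr
    unfold h49E
    apply add_le_add
    · apply mul_le_mul_of_nonneg_left _ h1
      apply Finset.sum_le_sum
      intro k _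
      by_cases hk : k = i
      · subst hk; simp [h49S_self, hz]
      · simp [h49S_ne hk]
    · apply mul_le_mul_of_nonneg_left _ h2
      apply Finset.sum_le_sum
      intro k _
      by_cases hk : k = i
      · subst hk; simp [h49S_self, hi]
      · simp [h49S_ne hk, hk]
  have e3 : h49F s A B θ₁ θ₂ T (h49S i z) ≤
      max (h49F s A B θ₁ θ₂ (insert i T) z) (h49F s A B θ₁ θ₂ (insert i T) (h49S i z)) := by
    apply Finset.sup_le
    intro j hj
    by_cases hA : i ∈ A j
    · have hB : i ∉ B j := fun h => (Finset.disjoint_left.mp (hd j hj)) hA h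
      apply le_max_of_le_right
      refine le_trans (le_of_eq ?_) (Finset.le_sup (f := fun j => ENNReal.ofReal
        (Real.exp (h49E (A j) (B j) θ₁ θ₂ (insert i T) (h49S i z)))) hj)
      congr 2
      unfold h49E
      congr 2
      apply Finset.sum_congr rfl
      intro k hk
      have hki : k ≠ i := fun h => hB (h ▸ hk)
      simp [hki]
    · apply le_max_of_le_left
      refine le_trans (le_of_eq ?_) (Finset.le_sup (f := fun j => ENNReal.ofReal
        (Real.exp (h49E (A j) (B j) θ₁ θ₂ (insert i T) z))) hj)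
      congr 2
      unfold h49E
      congr 1
      · congr 1
        apply Finset.sum_congr rfl
        intro k hk
        have hki : k ≠ i := fun h => hA (h ▸ hk)
        rw [h49S_ne hki]
      · congr 1
        apply Finset.sum_congr rfl
        intro k hk
        by_cases hki : k = i
        · subst hki; simp [h49S_self, hi]
        · simp [h49S_ne hki, hki]
  calc _ ≤ min (h49F s A B θ₁ θ₂ (insert i T) z) (h49F s A B θ₁ θ₂ (insert i T) (h49S i z)) +
        max (h49F s A B θ₁ θ₂ (insert i T) z) (h49F s A B θ₁ θ₂ (insert i T) (h49S i z)) :=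
      add_le_add (le_min e1 e2) e3
    _ = _ := min_add_max _ _

/-- the pointwise inequality -/
theorem h49_point {ι J : Type*} [DecidableEq ι] (s : Finset J) (A B : J → Finset ι)
    (hd : ∀ j ∈ s, Disjoint (A j) (B j)) {θ₁ θ₂ : ℝ} (h1 : 0 ≤ θ₁) (h2 : 0 ≤ θ₂)
    (T : Finset ι) {i : ι} (hi : i ∉ T) (z : ι → ℝ × ℝ) :
    h49F s A B θ₁ θ₂ T z + h49F s A B θ₁ θ₂ T (h49S i z) ≤
      h49F s A B θ₁ θ₂ (insert i T) z + h49F s A B θ₁ θ₂ (insert i T) (h49S i z) := by
  rcases le_total (z i).1 (z i).2 with h | h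
  · exact h49_point_aux s A B hd h1 h2 T hi z h
  · have := h49_point_aux s A B hd h1 h2 T hi (h49S i z) (by simpa [h49S_self] using h)
    rw [h49S_invol] at this
    rw [add_comm, add_comm (h49F s A B θ₁ θ₂ (insert i T) z)]
    exact this

theorem h49S_mp {ι : Type*} [Fintype ι] [DecidableEq ι] (μ : ι → Measure ℝ)
    [∀ i, IsProbabilityMeasure (μ i)] (i : ι) :
    MeasurePreserving (h49S i) (Measure.pi fun k => (μ k).prod (μ k))
      (Measure.pi fun k => (μ k).prod (μ k)) := by
  apply measurePreserving_pi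
  intro k
  by_cases h : k = i
  · simp only [h, if_true]
    exact Measure.measurePreserving_swap
  · simp only [h, if_false]
    exact MeasurePreserving.id _

theorem h49_step {ι J : Type*} [Fintype ι] [DecidableEq ι] (μ : ι → Measure ℝ)
    [∀ i, IsProbabilityMeasure (μ i)] (s : Finset J) (A B : J → Finset ι)
    (hd : ∀ j ∈ s, Disjoint (A j) (B j)) {θ₁ θ₂ : ℝ} (h1 : 0 ≤ θ₁) (h2 : 0 ≤ θ₂)
    (T : Finset ι) {i : ι} (hi : i ∉ T) :
    ∫⁻ z, h49F s A B θ₁ θ₂ T z ∂(Measure.pi fun k => (μ k).prod (μ k)) ≤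
      ∫⁻ z, h49F s A B θ₁ θ₂ (insert i T) z ∂(Measure.pi fun k => (μ k).prod (μ k)) := by
  have key := lintegral_mono (μ := Measure.pi fun k => (μ k).prod (μ k))
    (h49_point s A B hd h1 h2 T hi)
  rw [lintegral_add_left (h49F_measurable s A B θ₁ θ₂ T),
    lintegral_add_left (h49F_measurable s A B θ₁ θ₂ (insert i T)),
    (h49S_mp μ i).lintegral_comp (h49F_measurable s A B θ₁ θ₂ T),
    (h49S_mp μ i).lintegral_comp (h49F_measurable s A B θ₁ θ₂ (insert i T)),
    ← two_mul, ← two_mul] at key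
  exact (ENNReal.mul_le_mul_iff_right (by norm_num) (by norm_num)).mp key

theorem disjoint_sup {ι : Type*} [Fintype ι] [DecidableEq ι] (μ : ι → Measure ℝ)
    [∀ i, IsProbabilityMeasure (μ i)] {J : Type*} (s : Finset J) (A B : J → Finset ι)
    (hd : ∀ j ∈ s, Disjoint (A j) (B j)) {θ₁ θ₂ : ℝ} (h1 : 0 ≤ θ₁) (h2 : 0 ≤ θ₂) :
    ∫⁻ x, (s.sup fun j => ENNReal.ofReal
        (Real.exp (θ₁ * ∑ i ∈ A j, x i + θ₂ * ∑ i ∈ B j, x i))) ∂(Measure.pi μ) ≤
      ∫⁻ x, ∫⁻ y, (s.sup fun j => ENNReal.ofReal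
        (Real.exp (θ₁ * ∑ i ∈ A j, x i + θ₂ * ∑ i ∈ B j, y i))) ∂(Measure.pi μ)
          ∂(Measure.pi μ) := by
  have all : ∀ T : Finset ι, ∫⁻ z, h49F s A B θ₁ θ₂ ∅ z ∂(Measure.pi fun k => (μ k).prod (μ k)) ≤
      ∫⁻ z, h49F s A B θ₁ θ₂ T z ∂(Measure.pi fun k => (μ k).prod (μ k)) := by
    intro T
    induction T using Finset.induction_on with
    | empty => exact le_rfl
    | insert i T hi ih => exact ih.trans (h49_step μ s A B hd h1 h2 T hi)
  have hmp := measurePreserving_arrowProdEquivProdArrow ℝ ℝ ι μ μ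
  -- transfer to the product of the two product measures
  have tr : ∀ T : Finset ι, ∫⁻ z, h49F s A B θ₁ θ₂ T z ∂(Measure.pi fun k => (μ k).prod (μ k)) =
      ∫⁻ x, ∫⁻ y, h49F s A B θ₁ θ₂ T (fun k => (x k, y k)) ∂(Measure.pi μ) ∂(Measure.pi μ) := by
    intro T
    have hm : Measurable (fun p : (ι → ℝ) × (ι → ℝ) =>
        h49F s A B θ₁ θ₂ T (fun k => (p.1 k, p.2 k))) := by
      apply (h49F_measurable s A B θ₁ θ₂ T).comp
      rw [measurable_pi_iff]
      intro k
      exact ((measurable_pi_apply k).comp measurable_fst).prodMk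
        ((measurable_pi_apply k).comp measurable_snd)
    rw [← lintegral_prod _ hm.aemeasurable, ← hmp.lintegral_comp hm]
    rfl
  have h0 := all Finset.univ
  rw [tr ∅, tr Finset.univ] at h0
  have hL : ∀ x y : ι → ℝ, h49F s A B θ₁ θ₂ ∅ (fun k => (x k, y k)) =
      s.sup fun j => ENNReal.ofReal (Real.exp (θ₁ * ∑ i ∈ A j, x i + θ₂ * ∑ i ∈ B j, x i)) := by
    intro x y; simp [h49F, h49E]
  have hR : ∀ x y : ι → ℝ, h49F s A B θ₁ θ₂ Finset.univ (fun k => (x k, y k)) =
      s.sup fun j => ENNReal.ofReal (Real.exp (θ₁ * ∑ i ∈ A j, x i + θ₂ * ∑ i ∈ B j, y i)) := by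
    intro x y; simp [h49F, h49E]
  simp only [hL, hR] at h0
  simpa using h0

end Helper97.LPP
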